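import Mathlib

/-!
# A verifier for frontier dynamic programming

A colouring `φ` of the vertices (colours below `8`) is followed through an elimination order; the
colours of the frontier are coded in base `8`, and the certificate lists for every step all the
codes that may occur.
-/

set_option autoImplicit false

namespace Pool.H96.LC

/-- the code in base `8` of the colours of the vertices of a list -/
def code (φ : ℕ → ℕ) : List ℕ → ℕ
  | [] => 0
  | v :: l => φ v + 8 * code φ l

/-- the power of `8` of the place of a vertex in a list -/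
def pw : List ℕ → ℕ → Option ℕ
  | [], _ => none
  | u :: l, w => if u = w then some 1 else (pw l w).map (fun p => 8 * p)

theorem pw_spec (φ : ℕ → ℕ) (h8 : ∀ v, φ v < 8) :
    ∀ (l : List ℕ) (w p : ℕ), pw l w = some p → code φ l / p % 8 = φ w := by
  intro l
  induction l with
  | nil => intro w p h; simp [pw] at h
  | cons u l ih =>
    intro w p h
    unfold pw at h
    by_cases huw : u = w
    · rw [if_pos huw] at h
      have hp : p = 1 := (Option.some.inj h).symm
      subst hp
      subst huw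
      have := h8 u
      unfold code
      rw [Nat.div_one, Nat.add_mul_mod_self_left]
      exact Nat.mod_eq_of_lt this
    · rw [if_neg huw] at h
      rcases h2 : pw l w with _ | q
      · rw [h2] at h; simp at h
      · rw [h2] at h
        have hp : p = 8 * q := (Option.some.inj h).symm
        subst hp
        have h3 := ih w q h2
        have h5 : ∀ x : ℕ, (φ u + 8 * x) / 8 = x := by
          intro x
          have := h8 u
          omega
        have h6 : code φ (u :: l) / 8 = code φ l := h5 _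
        have h4 : code φ (u :: l) / (8 * q) = code φ l / q := by
          rw [← Nat.div_div_eq_div_mul, h6]
        rw [h4]
        exact h3

/-- one step of the elimination: the vertex, its colours, the places of its neighbours in the
frontier, the places of the pairs that form a face with it, the new frontier (place `0` stands
for the vertex itself) and the list of the new codes -/
structure Stp where
  v : ℕ
  cols : List ℕ
  nb : List (ℕ × ℕ)
  fc : List ((ℕ × ℕ) × (ℕ × ℕ))
  sel : List (ℕ × ℕ)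
  S : List ℕ

/-- membership of a number in a list -/
def mem (k : ℕ) : List ℕ → Bool
  | [] => false
  | a :: l => Nat.beq a k || mem k l

theorem mem_iff (k : ℕ) (l : List ℕ) : mem k l = true → k ∈ l := by
  induction l with
  | nil => intro h; simp [mem] at h
  | cons a l ih =>
    intro h
    unfold mem at h
    rcases Bool.or_eq_true _ _ ▸ h with h | h
    · exact List.mem_cons.2 (Or.inl (Nat.eq_of_beq_eq_true h).symm)
    · exact List.mem_cons.2 (Or.inr (ih h))

/-- some neighbour has the colour `c` -/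
def nbBad (k c : ℕ) : List (ℕ × ℕ) → Bool
  | [] => false
  | a :: l => Nat.beq (k / a.2 % 8) c || nbBad k c l

/-- some face has its two other corners of colour at least `2` -/
def fcBad (k : ℕ) : List ((ℕ × ℕ) × (ℕ × ℕ)) → Bool
  | [] => false
  | a :: l => (Nat.ble 2 (k / a.1.2 % 8) && Nat.ble 2 (k / a.2.2 % 8)) || fcBad k l

/-- the code of the new frontier -/
def newCode (k c : ℕ) : List (ℕ × ℕ) → ℕ
  | [] => 0
  | a :: l => (bif Nat.beq a.2 0 then c else k / a.2 % 8) + 8 * newCode k c l

/-- the test for one code and one colour -/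
def tst (st : Stp) (k c : ℕ) : Bool :=
  nbBad k c st.nb || (Nat.ble 2 c && fcBad k st.fc) || mem (newCode k c st.sel) st.S

/-- the data of a step refer to the graph -/
def valid (E : ℕ → ℕ → Bool) (F : ℕ → ℕ → ℕ → Bool) (fr : List ℕ) (st : Stp) : Bool :=
  st.nb.all (fun a => decide (pw fr a.1 = some a.2) && E st.v a.1) &&
  (st.fc.all (fun a => decide (pw fr a.1.1 = some a.1.2) && decide (pw fr a.2.1 = some a.2.2) &&
    F st.v a.1.1 a.2.1) &&
   st.sel.all (fun a => (decide (a.2 = 0) && decide (a.1 = st.v)) ||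
    (decide (a.2 ≠ 0) && decide (pw fr a.1 = some a.2))))

/-- the whole check -/
def run (E : ℕ → ℕ → Bool) (F : ℕ → ℕ → ℕ → Bool) : List ℕ → List ℕ → List Stp → Bool
  | _, S, [] => S.isEmpty
  | fr, S, st :: l => valid E F fr st && (S.all (fun k => st.cols.all (fun c => tst st k c)) &&
      run E F (st.sel.map Prod.fst) st.S l)

theorem nbBad_spec (φ : ℕ → ℕ) (fr : List ℕ) (v : ℕ) (h8 : ∀ v, φ v < 8)
    (l : List (ℕ × ℕ)) (h : ∀ a ∈ l, pw fr a.1 = some a.2 ∧ φ v ≠ φ a.1) :
    nbBad (code φ fr) (φ v) l = false := by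
  induction l with
  | nil => rfl
  | cons a l ih =>
    have h1 := h a (List.mem_cons_self ..)
    have h2 := ih (fun b hb => h b (List.mem_cons_of_mem _ hb))
    unfold nbBad
    rw [h2, Bool.or_false, pw_spec φ h8 fr a.1 a.2 h1.1]
    exact Bool.eq_false_iff.2 (fun hb => h1.2 (Nat.eq_of_beq_eq_true hb).symm)

theorem fcBad_spec (φ : ℕ → ℕ) (fr : List ℕ) (h8 : ∀ v, φ v < 8)
    (l : List ((ℕ × ℕ) × (ℕ × ℕ))) (h : ∀ a ∈ l, pw fr a.1.1 = some a.1.2 ∧
      pw fr a.2.1 = some a.2.2 ∧ ¬ (2 ≤ φ a.1.1 ∧ 2 ≤ φ a.2.1)) :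
    fcBad (code φ fr) l = false := by
  induction l with
  | nil => rfl
  | cons a l ih =>
    obtain ⟨h1, h2, h3⟩ := h a (List.mem_cons_self ..)
    have h4 := ih (fun b hb => h b (List.mem_cons_of_mem _ hb))
    unfold fcBad
    rw [h4, Bool.or_false, pw_spec φ h8 fr _ _ h1, pw_spec φ h8 fr _ _ h2]
    rw [Bool.eq_false_iff]
    intro hb
    rw [Bool.and_eq_true] at hb
    exact h3 ⟨Nat.le_of_ble_eq_true hb.1, Nat.le_of_ble_eq_true hb.2⟩

theorem newCode_spec (φ : ℕ → ℕ) (fr : List ℕ) (v : ℕ) (h8 : ∀ v, φ v < 8)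
    (l : List (ℕ × ℕ)) (h : ∀ a ∈ l, (a.2 = 0 ∧ a.1 = v) ∨ (a.2 ≠ 0 ∧ pw fr a.1 = some a.2)) :
    newCode (code φ fr) (φ v) l = code φ (l.map Prod.fst) := by
  induction l with
  | nil => rfl
  | cons a l ih =>
    have h4 := ih (fun b hb => h b (List.mem_cons_of_mem _ hb))
    unfold newCode
    rw [h4, List.map_cons, code]
    congr 1
    rcases h a (List.mem_cons_self ..) with ⟨h1, h2⟩ | ⟨h1, h2⟩
    · have h5 : Nat.beq a.2 0 = true := by rw [h1]; rfl
      rw [h5, h2]
      rfl
    · have h5 : Nat.beq a.2 0 = false := by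
        rw [Bool.eq_false_iff]
        exact fun hb => h1 (Nat.eq_of_beq_eq_true hb)
      rw [h5]
      exact pw_spec φ h8 fr _ _ h2

/-- soundness -/
theorem run_sound (E : ℕ → ℕ → Bool) (F : ℕ → ℕ → ℕ → Bool) (φ : ℕ → ℕ) (h8 : ∀ v, φ v < 8)
    (hE : ∀ u v, E u v = true → φ u ≠ φ v)
    (hF : ∀ u v w, F u v w = true → ¬ (2 ≤ φ u ∧ 2 ≤ φ v ∧ 2 ≤ φ w)) :
    ∀ (l : List Stp) (fr S : List ℕ), code φ fr ∈ S → (∀ st ∈ l, φ st.v ∈ st.cols) →
      run E F fr S l = true → False := by
  intro l
  induction l with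
  | nil =>
    intro fr S h1 _ h3
    unfold run at h3
    rw [List.isEmpty_iff] at h3
    rw [h3] at h1
    simp at h1
  | cons st l ih =>
    intro fr S h1 h2 h3
    unfold run at h3
    rw [Bool.and_eq_true, Bool.and_eq_true] at h3
    obtain ⟨hv, hs, hr⟩ := h3
    refine ih (st.sel.map Prod.fst) st.S ?_ (fun a ha => h2 a (List.mem_cons_of_mem _ ha)) hr
    have hc : φ st.v ∈ st.cols := h2 st (List.mem_cons_self ..)
    have ht : tst st (code φ fr) (φ st.v) = true :=
      List.all_eq_true.1 (List.all_eq_true.1 hs _ h1) _ hc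
    unfold valid at hv
    rw [Bool.and_eq_true, Bool.and_eq_true, List.all_eq_true, List.all_eq_true,
      List.all_eq_true] at hv
    obtain ⟨hv1, hv2, hv3⟩ := hv
    have e1 : nbBad (code φ fr) (φ st.v) st.nb = false := by
      apply nbBad_spec φ fr st.v h8
      intro a ha
      have := hv1 a ha
      rw [Bool.and_eq_true, decide_eq_true_eq] at this
      exact ⟨this.1, hE _ _ this.2⟩
    have e3 : newCode (code φ fr) (φ st.v) st.sel = code φ (st.sel.map Prod.fst) := by
      apply newCode_spec φ fr st.v h8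
      intro a ha
      have := hv3 a ha
      simpa [Bool.or_eq_true, Bool.and_eq_true] using this
    have e2 : (Nat.ble 2 (φ st.v) && fcBad (code φ fr) st.fc) = false := by
      by_cases hc2 : 2 ≤ φ st.v
      · have : fcBad (code φ fr) st.fc = false := by
          apply fcBad_spec φ fr h8
          intro a ha
          have := hv2 a ha
          rw [Bool.and_eq_true, Bool.and_eq_true, decide_eq_true_eq, decide_eq_true_eq] at this
          exact ⟨this.1.1, this.1.2, fun h => hF _ _ _ this.2 ⟨hc2, h.1, h.2⟩⟩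
        rw [this, Bool.and_false]
      · have : Nat.ble 2 (φ st.v) = false := by
          rw [Bool.eq_false_iff]
          exact fun h => hc2 (Nat.le_of_ble_eq_true h)
        rw [this, Bool.false_and]
    unfold tst at ht
    rw [e1, e2, e3, Bool.false_or, Bool.false_or] at ht
    exact mem_iff _ _ ht

/-- adjacency from a list of edges -/
def inE (l : List (ℕ × ℕ)) (u v : ℕ) : Bool :=
  l.any fun e => (Nat.beq e.1 u && Nat.beq e.2 v) || (Nat.beq e.1 v && Nat.beq e.2 u)

/-- the face with the corners `u v w` in any order is in the list -/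
def inF (l : List (ℕ × ℕ × ℕ)) (u v w : ℕ) : Bool :=
  l.any fun f =>
    (Nat.beq f.1 u && ((Nat.beq f.2.1 v && Nat.beq f.2.2 w) || (Nat.beq f.2.1 w && Nat.beq f.2.2 v)))
    || (Nat.beq f.2.1 u &&
      ((Nat.beq f.1 v && Nat.beq f.2.2 w) || (Nat.beq f.1 w && Nat.beq f.2.2 v)))
    || (Nat.beq f.2.2 u &&
      ((Nat.beq f.1 v && Nat.beq f.2.1 w) || (Nat.beq f.1 w && Nat.beq f.2.1 v)))

/-- the complete check: `C v` is the list of colours of the vertex `v` -/
def check (E : List (ℕ × ℕ)) (F : List (ℕ × ℕ × ℕ)) (C : List (List ℕ)) (l : List Stp) : Bool :=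
  l.all (fun st => decide (st.cols = C.getD st.v [])) && run (inE E) (inF F) [] [0] l

/-- no colouring passes a successful check -/
theorem check_sound (E : List (ℕ × ℕ)) (F : List (ℕ × ℕ × ℕ)) (C : List (List ℕ)) (l : List Stp)
    (hc : check E F C l = true) (φ : ℕ → ℕ) (h8 : ∀ v, φ v < 8)
    (hE : ∀ e ∈ E, φ e.1 ≠ φ e.2)
    (hF : ∀ f ∈ F, ¬ (2 ≤ φ f.1 ∧ 2 ≤ φ f.2.1 ∧ 2 ≤ φ f.2.2))
    (hC : ∀ st ∈ l, φ st.v ∈ C.getD st.v []) : False := by
  unfold check at hc
  rw [Bool.and_eq_true, List.all_eq_true] at hc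
  refine run_sound (inE E) (inF F) φ h8 ?_ ?_ l [] [0] (by simp [code]) ?_ hc.2
  · intro u v h
    unfold inE at h
    rw [List.any_eq_true] at h
    obtain ⟨e, he, h⟩ := h
    rw [Bool.or_eq_true, Bool.and_eq_true, Bool.and_eq_true] at h
    rcases h with ⟨h1, h2⟩ | ⟨h1, h2⟩
    · rw [← Nat.eq_of_beq_eq_true h1, ← Nat.eq_of_beq_eq_true h2]
      exact hE e he
    · rw [← Nat.eq_of_beq_eq_true h1, ← Nat.eq_of_beq_eq_true h2]
      exact (hE e he).symm
  · intro u v w h
    unfold inF at h
    rw [List.any_eq_true] at h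
    obtain ⟨f, hf, h⟩ := h
    have h3 := hF f hf
    rw [Bool.or_eq_true, Bool.or_eq_true, Bool.and_eq_true, Bool.and_eq_true, Bool.and_eq_true,
      Bool.or_eq_true, Bool.or_eq_true, Bool.or_eq_true, Bool.and_eq_true, Bool.and_eq_true,
      Bool.and_eq_true, Bool.and_eq_true, Bool.and_eq_true, Bool.and_eq_true] at h
    rintro ⟨g1, g2, g3⟩
    apply h3
    rcases h with (⟨a1, ⟨a2, a3⟩ | ⟨a2, a3⟩⟩ | ⟨a1, ⟨a2, a3⟩ | ⟨a2, a3⟩⟩) |
        ⟨a1, ⟨a2, a3⟩ | ⟨a2, a3⟩⟩ <;>
      (rw [← Nat.eq_of_beq_eq_true a1] at g1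
       have b2 := Nat.eq_of_beq_eq_true a2
       have b3 := Nat.eq_of_beq_eq_true a3
       first
         | (rw [← b2] at g2; rw [← b3] at g3; exact ⟨by assumption, by assumption, by assumption⟩)
         | (rw [← b2] at g3; rw [← b3] at g2; exact ⟨by assumption, by assumption, by assumption⟩))
  · intro st hst
    have := hc.1 st hst
    rw [decide_eq_true_eq] at this
    rw [this]
    exact hC st hst

end Pool.H96.LC
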