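import Pool.Agent.H96.LC.DP

/-!
# From a certificate to a killed triple of the corners
-/

set_option autoImplicit false

namespace Pool.H96.LC

/-- exchange of the colours `0` and `1` -/
def sw (c : ℕ) : ℕ := if c = 0 then 1 else if c = 1 then 0 else c

theorem sw_inj {a b : ℕ} (h : sw a = sw b) : a = b := by
  unfold sw at h
  split_ifs at h <;> omega

theorem sw_two {a : ℕ} (h : 2 ≤ sw a) : sw a = a := by
  unfold sw at h ⊢
  split_ifs at h ⊢ <;> omega

/-- the colours `2, 3, 4, 5` in a triple, all different -/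
def SSS (a b c : ℕ) : Prop :=
  2 ≤ a ∧ a ≤ 5 ∧ 2 ≤ b ∧ b ≤ 5 ∧ 2 ≤ c ∧ c ≤ 5 ∧ a ≠ b ∧ b ≠ c ∧ a ≠ c

/-- side conditions on the data of a certificate -/
def side (n : ℕ) (E : List (ℕ × ℕ)) (F : List (ℕ × ℕ × ℕ)) (C : List (List ℕ))
    (l : List Stp) : Bool :=
  E.all (fun e => Nat.blt e.1 n && Nat.blt e.2 n) &&
  (F.all (fun f => inE E f.1 f.2.1 && (inE E f.2.1 f.2.2 && inE E f.1 f.2.2)) &&
  ((List.range n).all (fun v => Nat.blt v 3 ||
    ((C.getD v []).all (fun c => Nat.ble c 5) && (mem 0 (C.getD v []) && mem 1 (C.getD v [])))) &&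
  (l.all (fun st => Nat.blt st.v n) &&
  (decide (C.getD 0 [] = [2]) && (decide (C.getD 1 [] = [3]) && decide (C.getD 2 [] = [0]))))))

theorem inE_mem {l : List (ℕ × ℕ)} {u v : ℕ} (h : inE l u v = true) :
    (u, v) ∈ l ∨ (v, u) ∈ l := by
  unfold inE at h
  rw [List.any_eq_true] at h
  obtain ⟨e, he, h⟩ := h
  rw [Bool.or_eq_true, Bool.and_eq_true, Bool.and_eq_true] at h
  rcases h with ⟨h1, h2⟩ | ⟨h1, h2⟩
  · left
    have : e = (u, v) := Prod.ext (Nat.eq_of_beq_eq_true h1) (Nat.eq_of_beq_eq_true h2)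
    rw [← this]; exact he
  · right
    have : e = (v, u) := Prod.ext (Nat.eq_of_beq_eq_true h1) (Nat.eq_of_beq_eq_true h2)
    rw [← this]; exact he

theorem blt_lt {a b : ℕ} (h : Nat.blt a b = true) : a < b := Nat.le_of_ble_eq_true h

/-- The corners `0, 1, 2` cannot get the colours `2, 3` and `0` or `1`. -/
theorem dead (n : ℕ) (E : List (ℕ × ℕ)) (F : List (ℕ × ℕ × ℕ)) (C : List (List ℕ))
    (l : List Stp) (hc : check E F C l = true) (hs : side n E F C l = true) (φ : ℕ → ℕ)
    (hE : ∀ e ∈ E, φ e.1 ≠ φ e.2)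
    (hL : ∀ v, 3 ≤ v → v < n → φ v ∈ C.getD v [])
    (hF : ∀ f ∈ F, ¬ SSS (φ f.1) (φ f.2.1) (φ f.2.2)) :
    ¬ (φ 0 = 2 ∧ φ 1 = 3 ∧ (φ 2 = 0 ∨ φ 2 = 1)) := by
  rintro ⟨h0, h1, h2⟩
  unfold side at hs
  simp only [Bool.and_eq_true, List.all_eq_true, decide_eq_true_eq, Bool.or_eq_true] at hs
  obtain ⟨s1, s2, s3, s4, s5, s6, s7⟩ := hs
  -- colours are at most 5
  have h5 : ∀ v, v < n → φ v ≤ 5 := by
    intro v hv
    by_cases h : 3 ≤ v
    · rcases s3 v (List.mem_range.2 hv) with g | g
      · exact absurd (blt_lt g) (by omega)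
      · exact Nat.le_of_ble_eq_true (g.1 _ (hL v h hv))
    · have : v = 0 ∨ v = 1 ∨ v = 2 := by omega
      rcases this with rfl | rfl | rfl
      · omega
      · omega
      · omega
  let g : ℕ → ℕ := fun c => if φ 2 = 1 then sw c else c
  have ginj : ∀ a b, g a = g b → a = b := by
    intro a b h
    simp only [g] at h
    split_ifs at h
    · exact sw_inj h
    · exact h
  have g2 : ∀ a, 2 ≤ g a → g a = a := by
    intro a h
    simp only [g] at h ⊢
    split_ifs at h ⊢
    · exact sw_two h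
    · rfl
  have gcases : ∀ a, g a = a ∨ g a = 0 ∨ g a = 1 := by
    intro a
    change (if φ 2 = 1 then sw a else a) = a ∨ (if φ 2 = 1 then sw a else a) = 0 ∨
      (if φ 2 = 1 then sw a else a) = 1
    unfold sw
    split_ifs
    · exact Or.inr (Or.inr rfl)
    · exact Or.inr (Or.inl rfl)
    · exact Or.inl rfl
    · exact Or.inl rfl
  refine check_sound E F C l hc (fun v => if v < n then g (φ v) else 0) ?_ ?_ ?_ ?_
  · intro v
    split_ifs with hv
    · have := h5 v hv
      rcases gcases (φ v) with e | e | e <;> omega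
    · omega
  · intro e he
    have := s1 e he
    have a1 := blt_lt this.1
    have a2 := blt_lt this.2
    change (if e.1 < n then g (φ e.1) else 0) ≠ (if e.2 < n then g (φ e.2) else 0)
    rw [if_pos a1, if_pos a2]
    exact fun h => hE e he (ginj _ _ h)
  · rintro f hf ⟨b1, b2, b3⟩
    obtain ⟨c1, c2, c3⟩ := s2 f hf
    have key : ∀ v, 2 ≤ (if v < n then g (φ v) else 0) → v < n ∧ 2 ≤ φ v := by
      intro v hv
      split_ifs at hv with h
      · exact ⟨h, by rw [← g2 _ hv]; exact hv⟩
      · omega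
    obtain ⟨d1, d1'⟩ := key _ b1
    obtain ⟨d2, d2'⟩ := key _ b2
    obtain ⟨d3, d3'⟩ := key _ b3
    have ne : ∀ u v, inE E u v = true → φ u ≠ φ v := by
      intro u v h
      rcases inE_mem h with h | h
      · exact hE _ h
      · exact (hE _ h).symm
    exact hF f hf ⟨d1', h5 _ d1, d2', h5 _ d2, d3', h5 _ d3, ne _ _ c1, ne _ _ c2, ne _ _ c3⟩
  · intro st hst
    have hv : st.v < n := blt_lt (s4 st hst)
    change (if st.v < n then g (φ st.v) else 0) ∈ _
    rw [if_pos hv]
    by_cases h : 3 ≤ st.v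
    · rcases s3 st.v (List.mem_range.2 hv) with k | k
      · exact absurd (blt_lt k) (by omega)
      · rcases gcases (φ st.v) with e | e | e
        · rw [e]; exact hL _ h hv
        · rw [e]; exact mem_iff _ _ k.2.1
        · rw [e]; exact mem_iff _ _ k.2.2
    · have : st.v = 0 ∨ st.v = 1 ∨ st.v = 2 := by omega
      rcases this with e | e | e
      · rw [e, s5, h0]
        have : g 2 = 2 := by
          by_cases k : φ 2 = 1
          · simp only [g, if_pos k]; rfl
          · simp only [g, if_neg k]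
        rw [this]; simp
      · rw [e, s6, h1]
        have : g 3 = 3 := by
          by_cases k : φ 2 = 1
          · simp only [g, if_pos k]; rfl
          · simp only [g, if_neg k]
        rw [this]; simp
      · rw [e, s7]
        have : g (φ 2) = 0 := by
          rcases h2 with h2 | h2
          · simp [g, h2]
          · simp [g, h2, sw]
        rw [this]; simp

end Pool.H96.LC
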